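import Mathlib

set_option autoImplicit false
open Finset Equiv Classical

namespace Pool.Agent.Results.MP_f2c072_co.Counter

/-- The window of length k starting at position i reduces to p. -/
def Occ {k n : ℕ} (p : Perm (Fin k)) (σ : Perm (Fin n)) (i : ℕ) : Prop :=
  ∃ h : i + k ≤ n, ∀ a b : Fin k, σ ⟨i + a, by omega⟩ < σ ⟨i + b, by omega⟩ ↔ p a < p b

noncomputable def α {k : ℕ} (B : Finset (Perm (Fin k))) (n : ℕ) : ℕ :=
  {σ : Perm (Fin n) | ∀ p ∈ B, ∀ i, ¬ Occ p σ i}.ncard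

def t1 : Perm (Fin 6) := swap 4 5
def t2 : Perm (Fin 6) := swap 4 5 * swap 3 5
def q : Perm (Fin 6) := swap 4 5 * swap 2 3 * swap 1 3

def w (i a : Fin 6) : Fin 11 := ⟨i + a, by omega⟩

def O (p : Perm (Fin 6)) (σ : Fin 11 → Fin 11) (i : Fin 6) : Prop :=
  ∀ a b, σ (w i a) < σ (w i b) ↔ p a < p b

instance (p : Perm (Fin 6)) (σ : Fin 11 → Fin 11) (i : Fin 6) : Decidable (O p σ i) := by
  unfold O; infer_instance

variable {U : Finset (Perm (Fin 11))} (hU : ∀ σ, σ ∈ U)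
include hU

theorem cnt (p : Perm (Fin 6)) : α {t1, p} 11 +
    (U.filter fun σ : Perm (Fin 11) => ∃ i, O t1 σ i ∨ O p σ i).card = U.card := by
  rw [α, add_comm,
    ← card_filter_add_card_filter_not (s := U) (fun σ : Perm (Fin 11) => ∃ i, O t1 σ i ∨ O p σ i),
    ← Set.ncard_coe_finset (U.filter fun σ => ¬ _)]
  refine congrArg _ (congrArg _ (Set.ext fun σ => ?_))
  simp only [coe_filter, hU, true_and, mem_insert, mem_singleton, forall_eq_or_imp, forall_eq,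
    not_exists, not_or, Set.mem_ofPred_eq]
  exact ⟨fun h i => ⟨fun e => h.1 i ⟨by omega, e⟩, fun e => h.2 i ⟨by omega, e⟩⟩,
    fun h => ⟨fun i ⟨a, e⟩ => (h ⟨i, by omega⟩).1 e, fun i ⟨a, e⟩ => (h ⟨i, by omega⟩).2 e⟩⟩

theorem same (p : Perm (Fin 6)) (hp : p ≠ t1) (i : Fin 6) :
    (U.filter fun σ : Perm (Fin 11) => O t1 σ i ∨ O p σ i).card =
      2 * (U.filter fun σ : Perm (Fin 11) => O t1 σ i).card := by
  rw [filter_or, card_union_of_disjoint, two_mul]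
  · congr 1
    let e : Fin 6 ↪ Fin 11 := ⟨w i, fun a b h => Fin.ext (by simpa [w] using h)⟩
    refine card_equiv (Equiv.mulRight (Perm.viaFintypeEmbedding (p⁻¹ * t1) e)) fun σ => ?_
    have : ∀ a, Perm.viaFintypeEmbedding (p⁻¹ * t1) e (w i a) = w i ((p⁻¹ * t1) a) :=
      Perm.viaFintypeEmbedding_apply_image _ e
    rw [mem_filter, mem_filter]
    simp only [hU, true_and, O, coe_mulRight, Perm.mul_apply σ, this]
    refine ⟨fun h a b => by simp [h], fun h a b => ?_⟩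
    simpa using h ((p⁻¹ * t1)⁻¹ a) ((p⁻¹ * t1)⁻¹ b)
  · rw [disjoint_filter]
    intro σ _ h1 h2
    have : StrictMono (p * t1⁻¹) := fun a b h => (h2 _ _).mp ((h1 _ _).mpr (by simpa using h))
    exact hp (mul_inv_eq_one.mp (Perm.ext fun a => this.apply_eq))

def T : List (Fin 11 → Fin 11) :=
  [![0, 1, 2, 3, 5, 4, 6, 7, 8, 10, 9],
   ![0, 1, 2, 3, 6, 4, 5, 7, 8, 10, 9],
   ![0, 1, 2, 3, 7, 4, 5, 6, 8, 10, 9],
   ![0, 1, 2, 3, 8, 4, 5, 6, 7, 10, 9],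
   ![0, 1, 2, 3, 9, 4, 5, 6, 7, 10, 8],
   ![0, 1, 2, 3, 10, 4, 5, 6, 7, 9, 8],
   ![0, 1, 2, 3, 5, 4, 6, 7, 9, 10, 8],
   ![0, 1, 2, 3, 6, 4, 5, 7, 9, 10, 8],
   ![0, 1, 2, 3, 7, 4, 5, 6, 9, 10, 8],
   ![0, 1, 2, 3, 8, 4, 5, 6, 9, 10, 7],
   ![0, 1, 2, 3, 9, 4, 5, 6, 8, 10, 7],
   ![0, 1, 2, 3, 10, 4, 5, 6, 8, 9, 7],
   ![0, 1, 2, 4, 5, 3, 6, 7, 8, 10, 9],
   ![0, 1, 2, 4, 6, 3, 5, 7, 8, 10, 9],
   ![0, 1, 2, 4, 7, 3, 5, 6, 8, 10, 9],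
   ![0, 1, 2, 4, 8, 3, 5, 6, 7, 10, 9],
   ![0, 1, 2, 4, 9, 3, 5, 6, 7, 10, 8],
   ![0, 1, 2, 4, 10, 3, 5, 6, 7, 9, 8],
   ![0, 1, 2, 5, 6, 3, 4, 7, 8, 10, 9],
   ![0, 1, 2, 5, 7, 3, 4, 6, 8, 10, 9],
   ![0, 1, 2, 5, 8, 3, 4, 6, 7, 10, 9],
   ![0, 1, 2, 5, 9, 3, 4, 6, 7, 10, 8],
   ![0, 1, 2, 5, 10, 3, 4, 6, 7, 9, 8],
   ![0, 1, 2, 6, 7, 3, 4, 5, 8, 10, 9],
   ![0, 1, 2, 6, 8, 3, 4, 5, 7, 10, 9],
   ![0, 1, 2, 6, 9, 3, 4, 5, 7, 10, 8],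
   ![0, 1, 2, 6, 10, 3, 4, 5, 7, 9, 8],
   ![0, 1, 2, 7, 8, 3, 4, 5, 6, 10, 9],
   ![0, 1, 2, 7, 9, 3, 4, 5, 6, 10, 8],
   ![0, 1, 2, 7, 10, 3, 4, 5, 6, 9, 8],
   ![0, 1, 2, 8, 9, 3, 4, 5, 6, 10, 7],
   ![0, 1, 2, 8, 10, 3, 4, 5, 6, 9, 7],
   ![0, 1, 2, 9, 10, 3, 4, 5, 6, 8, 7],
   ![0, 1, 2, 4, 5, 3, 6, 7, 9, 10, 8],
   ![0, 1, 2, 4, 6, 3, 5, 7, 9, 10, 8],
   ![0, 1, 2, 4, 7, 3, 5, 6, 9, 10, 8],
   ![0, 1, 2, 4, 8, 3, 5, 6, 9, 10, 7],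
   ![0, 1, 2, 4, 9, 3, 5, 6, 8, 10, 7],
   ![0, 1, 2, 4, 10, 3, 5, 6, 8, 9, 7],
   ![0, 1, 2, 5, 6, 3, 4, 7, 9, 10, 8],
   ![0, 1, 2, 5, 7, 3, 4, 6, 9, 10, 8],
   ![0, 1, 2, 5, 8, 3, 4, 6, 9, 10, 7],
   ![0, 1, 2, 5, 9, 3, 4, 6, 8, 10, 7],
   ![0, 1, 2, 5, 10, 3, 4, 6, 8, 9, 7],
   ![0, 1, 2, 6, 7, 3, 4, 5, 9, 10, 8]]

theorem sum_eq (p : Perm (Fin 6)) (hp : p ≠ t1) :
    ∑ σ ∈ U, (univ.filter fun i => O t1 σ i ∨ O p σ i).card =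
      ∑ i, 2 * (U.filter fun σ : Perm (Fin 11) => O t1 σ i).card := by
  rw [← sum_congr rfl fun i _ => same hU p hp i]
  simp only [card_filter]
  exact sum_comm

theorem up : (U.filter fun σ : Perm (Fin 11) =>
    (O t1 σ 0 ∨ O q σ 0) ∧ (O t1 σ 5 ∨ O q σ 5)).card ≤ 44 := by
  refine (card_le_card_of_injOn (t := univ) 
    (fun σ : Perm (Fin 11) => (decide (O t1 σ 0), decide (O t1 σ 5), σ 4))
    (fun _ _ => mem_coe.mpr (mem_univ _)) fun σ hσ τ hτ e => ?_).trans (show _ ≤ 44 by simp)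
  simp only [coe_filter, hU, true_and, Set.mem_ofPred_eq, Prod.mk.injEq,
    decide_eq_decide] at hσ hτ e
  have k0 : ∀ a b, σ (w 0 a) < σ (w 0 b) ↔ τ (w 0 a) < τ (w 0 b) := fun a b => by
    by_cases c : O t1 σ 0
    · rw [c, e.1.mp c]
    · rw [hσ.1.resolve_left c, hτ.1.resolve_left fun d => c (e.1.mpr d)]
  have k5 : ∀ a b, σ (w 5 a) < σ (w 5 b) ↔ τ (w 5 a) < τ (w 5 b) := fun a b => by
    by_cases c : O t1 σ 5
    · rw [c, e.2.1.mp c]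
    · rw [hσ.2.resolve_left c, hτ.2.resolve_left fun d => c (e.2.1.mpr d)]
  have k : ∀ ρ : Perm (Fin 11), (O t1 ρ 0 ∨ O q ρ 0) ∧ (O t1 ρ 5 ∨ O q ρ 5) →
      ∀ a b, a.val < 4 → b ≠ 0 → ρ (w 0 a) < ρ (w 5 b) := fun ρ h a b ha hb =>
    lt_trans (b := ρ (w 0 5))
      (h.1.elim (fun h => (h _ _).mpr (by revert a; decide)) fun h => (h _ _).mpr (by revert a; decide))
      (h.2.elim (fun h => (h 0 _).mpr (by revert b; decide)) fun h => (h 0 _).mpr (by revert b; decide))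
  have m : ∀ x y, x ≠ 4 → y ≠ 4 → (σ x < σ y ↔ τ x < τ y) := by
    intro x y hx hy
    have : (∃ a b, x = w 0 a ∧ y = w 0 b) ∨ (∃ a b, x = w 5 a ∧ y = w 5 b) ∨
        (∃ a b, a.val < 4 ∧ b ≠ 0 ∧ x = w 0 a ∧ y = w 5 b) ∨
        ∃ a b, a.val < 4 ∧ b ≠ 0 ∧ y = w 0 a ∧ x = w 5 b := by revert x y; decide +kernel
    rcases this with ⟨a, b, rfl, rfl⟩ | ⟨a, b, rfl, rfl⟩ | ⟨a, b, c, d, rfl, rfl⟩ |
      ⟨a, b, c, d, rfl, rfl⟩
    exacts [k0 a b, k5 a b, iff_of_true (k σ hσ a b c d) (k τ hτ a b c d),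
      iff_of_false (k σ hσ a b c d).not_gt (k τ hτ a b c d).not_gt]
  have r : ∀ (ρ : Perm (Fin 11)) x, (ρ x).val =
      ((univ.erase 4).filter fun y => ρ y < ρ x).card + if ρ 4 < ρ x then 1 else 0 := by
    intro ρ x
    rw [card_filter, sum_erase_add _ _ (mem_univ _), ← card_filter, ← Fin.card_Iio]
    exact (card_equiv ρ (by simp)).symm
  refine Perm.ext fun x => ?_
  by_cases hx : x = 4
  · rw [hx, e.2.2]
  have r1 := r σ x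
  have r2 := r τ x
  rw [filter_congr fun y hy => m y x (ne_of_mem_erase hy) hx, e.2.2] at r1
  have n1 : σ x ≠ τ 4 := e.2.2 ▸ σ.injective.ne hx
  have n2 : τ x ≠ τ 4 := τ.injective.ne hx
  split_ifs at r1 r2 <;> omega

omit hU in
theorem result : (∀ a, (t1 a).val = ![0, 1, 2, 3, 5, 4] a) ∧ (∀ a, (t2 a).val = ![0, 1, 2, 4, 5, 3] a) ∧
    ∃ B' : Finset (Perm (Fin 6)), B'.card = 2 ∧ α B' 11 < α {t1, t2} 11 := by
  refine ⟨by decide, by decide, {t1, q}, card_pair (by decide), ?_⟩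
  obtain ⟨U, hU⟩ : ∃ U : Finset (Perm (Fin 11)), ∀ σ, σ ∈ U := ⟨univ, mem_univ⟩
  have c1 := cnt hU q
  have c2 := cnt hU t2
  have s1 := sum_eq hU q (by decide)
  have s2 := sum_eq hU t2 (by decide)
  have u1 : ∀ σ : Perm (Fin 11), (univ.filter fun i => O t1 σ i ∨ O q σ i).card ≤
      (if ∃ i, O t1 σ i ∨ O q σ i then 1 else 0) +
        if (O t1 σ 0 ∨ O q σ 0) ∧ (O t1 σ 5 ∨ O q σ 5) then 1 else 0 := fun σ => by
    have : ∀ u : Fin 6 → Bool, (∀ i j, i < j → u i → u j → i = 0 ∧ j = 5) →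
        (univ.filter fun i => u i).card ≤ (if ∃ i, u i then 1 else 0) +
          if u 0 ∧ u 5 then 1 else 0 := by decide +kernel
    have h := this (fun i => decide (O t1 σ i ∨ O q σ i)) fun i j hij hi hj => by
      have : ∀ i j : Fin 6, i < j → ∀ p ∈ [t1, q], ∀ p' ∈ [t1, q], (i = 0 ∧ j = 5) ∨
          ∃ a b c d, w i a = w j c ∧ w i b = w j d ∧ ¬ (p a < p b ↔ p' c < p' d) := by
        decide +kernel
      obtain ⟨p, hp, h1⟩ : ∃ p ∈ [t1, q], O p σ i := by simpa using hi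
      obtain ⟨p', hp', h2⟩ : ∃ p ∈ [t1, q], O p σ j := by simpa using hj
      refine (this i j hij p hp p' hp').resolve_right fun ⟨a, b, c, d, e1, e2, e3⟩ => e3 ?_
      rw [← h1, ← h2, e1, e2]
    simpa only [decide_eq_true_eq] using h
  have u2 : ∀ σ : Perm (Fin 11), (if ∃ i, O t1 σ i ∨ O t2 σ i then 1 else 0) +
      (if (O t1 σ 0 ∨ O t2 σ 0) ∧ (O t1 σ 5 ∨ O t2 σ 5) then 1 else 0) ≤
      (univ.filter fun i => O t1 σ i ∨ O t2 σ i).card := fun σ => by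
    have : ∀ u : Fin 6 → Bool, (if ∃ i, u i then 1 else 0) +
        (if u 0 ∧ u 5 then 1 else 0) ≤ (univ.filter fun i => u i).card := by decide +kernel
    simpa only [decide_eq_true_eq] using this fun i => decide (O t1 σ i ∨ O t2 σ i)
  have v1 := sum_le_sum fun σ (_ : σ ∈ U) => u1 σ
  have v2 := sum_le_sum fun σ (_ : σ ∈ U) => u2 σ
  rw [sum_add_distrib, ← card_filter, ← card_filter] at v1 v2
  have lo : T.toFinset.card ≤ (U.filter fun σ : Perm (Fin 11) =>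
      (O t1 σ 0 ∨ O t2 σ 0) ∧ (O t1 σ 5 ∨ O t2 σ 5)).card := by
    refine card_le_card_of_surjOn (fun σ => σ) fun f hf => ?_
    rw [mem_coe, List.mem_toFinset] at hf
    have := List.forall_iff_forall_mem.mp (show T.Forall fun f => Function.Bijective f ∧
      (O t1 f 0 ∨ O t2 f 0) ∧ (O t1 f 5 ∨ O t2 f 5) by decide +kernel)
    exact ⟨ofBijective f (this f hf).1, mem_coe.mpr (mem_filter.mpr ⟨hU _, (this f hf).2⟩), rfl⟩
  have := up hU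
  have : T.toFinset.card = 45 := List.toFinset_card_of_nodup (by decide +kernel)
  omega

end Pool.Agent.Results.MP_f2c072_co.Counter
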